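import Pool.Agent.Helper94_D1.D1r
import Pool.Agent.Helper94_PP.Rel

/-! # Squad PP, part D1, module D1A: the absolute theorem -/

set_option autoImplicit false

open scoped BigOperators

noncomputable section

namespace Pool.Agent.PP.D1H94

open Pool.Agent.Helper51_AWC Pool.Agent.Helper79_WRA Pool.Agent.Helper79_WRA.H91 Pool.Agent.PP
  Pool.Agent.PP.H66

/-- D1A -/
theorem d1a (hd1r : D1rStmt) : D1aStmt := by
  intro ℓ _ F _ hF G _ _ N hN e he hp hd
  rw [H96.rel_eq_top hF N hN e he, hd1r ℓ F hF G N hN e he hp hd]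
  intro c hc1 hc2 hc3 _
  obtain ⟨a, ha, haN, hea, haQ⟩ := hd
  have hcm := mem_chainsOn.1 hc1
  obtain ⟨t1, t2⟩ := Pool.Agent.PP.H94.top_mem hcm.2.2 ⟨_, hcm.2.1⟩
  have htp : IsPGroup ℓ (top c) := (mem_psubIn.1 (hcm.1 t1)).2
  have hX1 := H96.centralizer_top_le t2
  have hX2 : stab c ≤ Subgroup.normalizer ((top c : Subgroup G) : Set G) := by
    intro x hx
    exact (Pool.Agent.PP.H94.mem_stab'.1 hx) _ t1
  have hbrm := H20.brm ℓ F hF G (top c) (stab c) htp hX1 hX2
  have hidem : IsIdem (fun t : stab c => br (top c) e t) := hbrm.2.2 e he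
  have hcent : cent N c = Subgroup.centralizer ((top c : Subgroup G) : Set G) ⊓ N :=
    H46.cent_eq hc1 N
  have hposc : Pos ℓ (fun t : stab c => br (top c) e t) ((cent N c).subgroupOf (stab c)) := by
    rw [hcent]
    exact H66.ps1 ℓ F hF G (top c) N htp hN hc3 e he hp (stab c) hX1 hX2
  have hnorm : ((cent N c).subgroupOf (stab c)).Normal := by
    constructor
    intro x hx g
    rw [Subgroup.mem_subgroupOf] at hx ⊢
    exact Pool.Agent.Helper79_WRA.H46.conj_mem_cent hN g.2 hx
  refine hd1r ℓ F hF _ _ hnorm _ hidem hposc ⟨fun t : stab c => br (top c) a t, hbrm.2.2 a ha,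
    ?_, ?_, ?_⟩
  · intro x hx
    change br (top c) a (x : G) = 0
    by_cases h1 : (x : G) ∈ Subgroup.centralizer ((top c : Subgroup G) : Set G)
    · rw [br_of_mem h1]
      apply haN
      intro h2
      apply hx
      rw [Subgroup.mem_subgroupOf, hcent]
      exact ⟨h1, h2⟩
    · exact br_of_not_mem h1
  · rw [← hbrm.2.1, ← hbrm.1 e a he.1 ha.1, hea]
  · intro Q hQN hQp hQb
    obtain ⟨t, h1, h2⟩ := br_ne hQb
    have h3 : (t : G) ∈ Subgroup.centralizer ((top c : Subgroup G) : Set G) := by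
      by_contra h
      exact h2 (br_of_not_mem h)
    rw [br_of_mem h3] at h2
    rw [← card_sub Q]
    apply haQ _ _ (p_sub hQp)
    · apply br_ne' (t := (t : G)) _ h2
      rw [Subgroup.mem_centralizer_iff] at h1 ⊢
      rintro _ ⟨q, hq, rfl⟩
      exact congrArg Subtype.val (h1 q hq)
    · rintro _ ⟨q, hq, rfl⟩
      have h4 := hQN hq
      rw [Subgroup.mem_subgroupOf, hcent] at h4
      exact h4.2

end Pool.Agent.PP.D1H94
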